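import Pool.Agent.H93.ES.Targets

/-!
# Row EBS of es_modules: the inequality of Bessel for any number of levels
-/

set_option autoImplicit false

open Finset Pool.Agent.H18.MR Pool.Agent.H93.DE Pool.Agent.H6.N4D Pool.Agent.H93 Pool.Agent.H93.ES

namespace Pool.Agent.H56.ES

/-! ## The entropy rate -/

/-- the modulus one -/
lemma hc_one {N : ℕ} [NeZero N] (x : ZMod N → Bool) (L : ℕ) :
    hc x L 1 = ent (unif N) (fun n => wd x L n) := by
  unfold hc
  rw [dif_neg one_ne_zero]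
  simp only [Nat.cast_one, Real.log_one, sub_zero]
  symm
  exact ent_congr_inj _ _ _ (fun v => (v, 0)) (fun v => v.1)
    (fun n => Prod.ext rfl (Subsingleton.elim _ _)) (fun _ => rfl)

/-- the entropy rate decreases -/
lemma ent_rate (hM : T_MNT) {N : ℕ} [NeZero N] (x : ZMod N → Bool) {s a : ℕ} (h : s ≤ a) :
    ent (unif N) (fun n => wd x (2 ^ a) n) / 2 ^ a ≤
      ent (unif N) (fun n => wd x (2 ^ s) n) / 2 ^ s := by
  have h1 := hM N (2 ^ (a - s)) (2 ^ s) 1 1 x one_pos dvd_rfl (one_dvd N)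
  rw [← pow_add, Nat.sub_add_cancel h, hc_one, hc_one] at h1
  push_cast at h1
  rw [div_le_div_iff₀ (by positivity) (by positivity)]
  have h2 : (2 : ℝ) ^ a = 2 ^ (a - s) * 2 ^ s := by rw [← pow_add, Nat.sub_add_cancel h]
  calc ent (unif N) (fun n => wd x (2 ^ a) n) * 2 ^ s ≤
        (2 ^ (a - s) * ent (unif N) (fun n => wd x (2 ^ s) n)) * 2 ^ s :=
        mul_le_mul_of_nonneg_right h1 (by positivity)
    _ = ent (unif N) (fun n => wd x (2 ^ s) n) * 2 ^ a := by rw [h2]; ring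

/-! ## The tests are bounded -/

lemma card_mul (q n N : ℕ) (hq : 1 ≤ q) :
    (((Ioc n (n + N)).filter fun x => q ∣ x).card : ℝ) ≤ (N : ℝ) / q + 1 := by
  have hq0 : (0 : ℝ) < q := by exact_mod_cast hq
  have h1 : ((Ioc 0 n).filter fun x => q ∣ x).card +
      ((Ioc n (n + N)).filter fun x => q ∣ x).card =
      ((Ioc 0 (n + N)).filter fun x => q ∣ x).card := by
    rw [← Finset.card_union_of_disjoint, ← Finset.filter_union]
    · congr 2
      ext x
      simp only [Finset.mem_union, Finset.mem_Ioc]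
      omega
    · rw [Finset.disjoint_left]
      intro x hx hy
      simp only [Finset.mem_filter, Finset.mem_Ioc] at hx hy
      omega
  rw [Nat.Ioc_filter_dvd_card_eq_div, Nat.Ioc_filter_dvd_card_eq_div] at h1
  have h2 : (((n + N) / q : ℕ) : ℝ) ≤ ((n : ℝ) + N) / q := by
    have := Nat.cast_div_le (α := ℝ) (m := n + N) (n := q)
    push_cast at this
    exact this
  have h3 : (n : ℝ) / q - 1 ≤ ((n / q : ℕ) : ℝ) := by
    have h4 : n < (n / q + 1) * q := by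
      have := Nat.lt_div_mul_add (a := n) (b := q) (by omega)
      calc n < n / q * q + q := this
        _ = (n / q + 1) * q := by ring
    have h5 : (n : ℝ) < (((n / q : ℕ) : ℝ) + 1) * q := by exact_mod_cast h4
    have h6 : (n : ℝ) / q < ((n / q : ℕ) : ℝ) + 1 := by
      rw [div_lt_iff₀ hq0]
      exact h5
    linarith
  have h4 : (((n / q : ℕ) : ℝ)) + (((Ioc n (n + N)).filter fun x => q ∣ x).card : ℝ) =
      (((n + N) / q : ℕ) : ℝ) := by exact_mod_cast h1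
  have h5 : ((n : ℝ) + N) / q = (n : ℝ) / q + (N : ℝ) / q := add_div _ _ _
  linarith

lemma zz_le {lam : ℕ → ℝ} (hlam : ∀ n, 1 ≤ n → |lam n| ≤ 1) {q N : ℕ} (n : ℕ) (hq : 1 ≤ q)
    (hqN : q ≤ N) (α : ℝ) {g : ℕ → ℂ} (hg : ∀ m ∈ Ioc n (n + N), ‖g m‖ ≤ 1) :
    EB.zz lam q N n α g ≤ 3 := by
  have hN : 0 < N := by omega
  have hN0 : (0 : ℝ) < N := by exact_mod_cast hN
  have hq0 : (0 : ℝ) < q := by exact_mod_cast hq
  unfold EB.zz
  rw [norm_div, Complex.norm_natCast, div_le_iff₀ hN0]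
  have h1 : ∀ x ∈ Ioc n (n + N), ‖(lam x : ℂ) * (EB.D q x : ℂ) * ee (-(α * x)) * g x‖ ≤
      (if q ∣ x then (q : ℝ) else 0) + 1 := by
    intro x hx
    rw [norm_mul, norm_mul, norm_mul, norm_ee, mul_one, Complex.norm_real, Complex.norm_real,
      Real.norm_eq_abs, Real.norm_eq_abs]
    have h2 : |EB.D q x| ≤ (if q ∣ x then (q : ℝ) else 0) + 1 := by
      unfold EB.D
      refine (abs_sub _ _).trans ?_
      rw [abs_one]
      have : |(if q ∣ x then (q : ℝ) else 0)| = if q ∣ x then (q : ℝ) else 0 := by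
        apply abs_of_nonneg
        split_ifs
        · exact hq0.le
        · exact le_refl _
      rw [this]
    have hx1 : 1 ≤ x := by
      rw [mem_Ioc] at hx
      omega
    calc |lam x| * |EB.D q x| * ‖g x‖ ≤ 1 * |EB.D q x| * 1 := by
          refine mul_le_mul ?_ (hg x hx) (norm_nonneg _) (by positivity)
          exact mul_le_mul_of_nonneg_right (hlam x hx1) (abs_nonneg _)
      _ = |EB.D q x| := by ring
      _ ≤ _ := h2
  refine (norm_sum_le _ _).trans ((Finset.sum_le_sum h1).trans ?_)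
  rw [Finset.sum_add_distrib, ← Finset.sum_filter, Finset.sum_const, Finset.sum_const,
    nsmul_eq_mul, nsmul_eq_mul, Nat.card_Ioc]
  have h3 := card_mul q n N hq
  have h4 : (((Ioc n (n + N)).filter fun x => q ∣ x).card : ℝ) * q ≤ ((N : ℝ) / q + 1) * q :=
    mul_le_mul_of_nonneg_right h3 hq0.le
  have h5 : ((N : ℝ) / q + 1) * q = N + q := by field_simp
  have h6 : (q : ℝ) ≤ N := by exact_mod_cast hqN
  have h7 : ((n + N - n : ℕ) : ℝ) = N := by
    congr 1
    omega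
  rw [h7]
  linarith

lemma mem_QQ {q w : ℕ} (h : q ∈ EB.QQ w) : 1 ≤ q ∧ q ≤ 2 ^ w := by
  unfold EB.QQ at h
  rw [mem_filter, mem_Ioc] at h
  exact ⟨h.2.one_le, h.1.2.trans (Nat.pow_le_pow_right (by norm_num) (Nat.div_le_self _ _))⟩

lemma ind_nonneg (p : Prop) : 0 ≤ EB.ind p := by
  unfold EB.ind
  split_ifs <;> norm_num

lemma ind_le_one (p : Prop) : EB.ind p ≤ 1 := by
  unfold EB.ind
  split_ifs <;> norm_num

/-- one level is bounded -/
lemma lev_le {lam : ℕ → ℝ} (hlam : ∀ n, 1 ≤ n → |lam n| ≤ 1) {W : ℝ} {w : ℕ}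
    (hW : ∑ q ∈ EB.QQ w, 1 / (q : ℝ) ≤ W) (n : ℕ) (c : ℕ → ℝ) (hc : ∀ q, 0 ≤ c q ∧ c q ≤ 1)
    (α : ℕ → ℝ) (g : ℕ → ℕ → ℂ) (hg : ∀ q ∈ EB.QQ w, ∀ m ∈ Ioc n (n + 2 ^ w), ‖g q m‖ ≤ 1) :
    0 ≤ ∑ q ∈ EB.QQ w, 1 / (q : ℝ) * (c q * EB.zz lam q (2 ^ w) n (α q) (g q) ^ 2) ∧
    ∑ q ∈ EB.QQ w, 1 / (q : ℝ) * (c q * EB.zz lam q (2 ^ w) n (α q) (g q) ^ 2) ≤ 9 * W := by
  constructor
  · refine sum_nonneg fun q _ => mul_nonneg (by positivity) (mul_nonneg (hc q).1 (sq_nonneg _))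
  · calc ∑ q ∈ EB.QQ w, 1 / (q : ℝ) * (c q * EB.zz lam q (2 ^ w) n (α q) (g q) ^ 2) ≤
          ∑ q ∈ EB.QQ w, 1 / (q : ℝ) * 9 := by
          refine sum_le_sum fun q hq => mul_le_mul_of_nonneg_left ?_ (by positivity)
          obtain ⟨h1, h2⟩ := mem_QQ hq
          have h3 := zz_le hlam n h1 h2 (α q) (hg q hq)
          have h0 : 0 ≤ EB.zz lam q (2 ^ w) n (α q) (g q) := norm_nonneg _
          have h4 : EB.zz lam q (2 ^ w) n (α q) (g q) ^ 2 ≤ 9 := by nlinarith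
          calc c q * EB.zz lam q (2 ^ w) n (α q) (g q) ^ 2 ≤
                1 * EB.zz lam q (2 ^ w) n (α q) (g q) ^ 2 :=
                mul_le_mul_of_nonneg_right (hc q).2 (sq_nonneg _)
            _ ≤ 9 := by rw [one_mul]; exact h4
      _ = 9 * ∑ q ∈ EB.QQ w, 1 / (q : ℝ) := by rw [← sum_mul, mul_comm]
      _ ≤ 9 * W := mul_le_mul_of_nonneg_left hW (by norm_num)

/-! ## Sizes -/

lemma two_pow_half (M : ℕ) : M + 1 ≤ 2 * 2 ^ (M / 2) := by
  obtain ⟨k, hk⟩ := Nat.even_or_odd' M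
  have h1 : ∀ k : ℕ, k + 1 ≤ 2 ^ k := fun k => Nat.lt_two_pow_self
  rcases hk with h | h
  · rw [h, Nat.mul_div_cancel_left k (by norm_num)]
    have := h1 k
    omega
  · have h2 : M / 2 = k := by omega
    rw [h2, h]
    have := h1 k
    omega

/-- the number of levels and the length of the blocks -/
lemma size_le (M N₀ : ℕ) (hN₀ : 1 ≤ N₀) :
    ((M : ℝ) + 1) * (1 + Real.log ((primorial (2 ^ (M / 200)) * 2 ^ (3 * M) * N₀ : ℕ) : ℝ)) ≤
      (4 * (4 + Real.log N₀) + 4) * 2 ^ M := by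
  have hp : 0 < primorial (2 ^ (M / 200)) := primorial_pos _
  have hpr : (0 : ℝ) < primorial (2 ^ (M / 200)) := by exact_mod_cast hp
  have hN0 : (0 : ℝ) < N₀ := by exact_mod_cast hN₀
  have h1 : Real.log ((primorial (2 ^ (M / 200)) * 2 ^ (3 * M) * N₀ : ℕ) : ℝ) ≤
      2 * 2 ^ (M / 200) + 3 * M + Real.log N₀ := by
    push_cast
    rw [Real.log_mul (by positivity) hN0.ne', Real.log_mul hpr.ne' (by positivity), Real.log_pow]
    have h2 : Real.log (primorial (2 ^ (M / 200)) : ℝ) ≤ 2 * 2 ^ (M / 200) := by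
      have h3 : ((primorial (2 ^ (M / 200)) : ℕ) : ℝ) ≤ (4 : ℝ) ^ (2 ^ (M / 200)) := by
        exact_mod_cast primorial_le_four_pow _
      refine (Real.log_le_log hpr h3).trans ?_
      rw [Real.log_pow]
      have h4 : Real.log 4 ≤ 2 := by
        have h5 : (4 : ℝ) = 2 ^ 2 := by norm_num
        rw [h5, Real.log_pow]
        have := Real.log_two_lt_d9
        push_cast
        linarith
      push_cast
      have h5 : (0 : ℝ) < 2 ^ (M / 200) := by positivity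
      nlinarith
    have h3 : ((3 * M : ℕ) : ℝ) * Real.log 2 ≤ 3 * M := by
      push_cast
      have := Real.log_two_lt_d9
      have h4 : (0 : ℝ) ≤ 3 * (M : ℝ) := by positivity
      nlinarith
    linarith
  have hl0 : 0 ≤ Real.log (N₀ : ℝ) := Real.log_natCast_nonneg _
  have hM0 : (0 : ℝ) ≤ M := Nat.cast_nonneg _
  have a1 : ((M : ℝ) + 1) * ((M : ℝ) + 1) ≤ 4 * 2 ^ M := by
    have h2 := two_pow_half M
    have h3 : ((M : ℝ) + 1) ≤ 2 * 2 ^ (M / 2) := by exact_mod_cast h2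
    calc ((M : ℝ) + 1) * ((M : ℝ) + 1) ≤ (2 * 2 ^ (M / 2)) * (2 * 2 ^ (M / 2)) :=
          mul_le_mul h3 h3 (by positivity) (by positivity)
      _ = 4 * 2 ^ (M / 2 + M / 2) := by rw [pow_add]; ring
      _ ≤ 4 * 2 ^ M := by
          refine mul_le_mul_of_nonneg_left (pow_le_pow_right₀ (by norm_num) ?_) (by norm_num)
          omega
  have a2 : ((M : ℝ) + 1) * 2 ^ (M / 200) ≤ 2 * 2 ^ M := by
    have h2 := two_pow_half M
    have h3 : ((M : ℝ) + 1) ≤ 2 * 2 ^ (M / 2) := by exact_mod_cast h2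
    calc ((M : ℝ) + 1) * 2 ^ (M / 200) ≤ (2 * 2 ^ (M / 2)) * 2 ^ (M / 200) :=
          mul_le_mul_of_nonneg_right h3 (by positivity)
      _ = 2 * 2 ^ (M / 2 + M / 200) := by rw [pow_add]; ring
      _ ≤ 2 * 2 ^ M := by
          refine mul_le_mul_of_nonneg_left (pow_le_pow_right₀ (by norm_num) ?_) (by norm_num)
          omega
  have a3 : 1 + (2 * 2 ^ (M / 200) + 3 * M + Real.log N₀) ≤
      2 * 2 ^ (M / 200) + (4 + Real.log N₀) * ((M : ℝ) + 1) := by nlinarith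
  calc ((M : ℝ) + 1) * (1 + Real.log ((primorial (2 ^ (M / 200)) * 2 ^ (3 * M) * N₀ : ℕ) : ℝ)) ≤
        ((M : ℝ) + 1) * (2 * 2 ^ (M / 200) + (4 + Real.log N₀) * ((M : ℝ) + 1)) :=
        mul_le_mul_of_nonneg_left (by linarith) (by positivity)
    _ = 2 * (((M : ℝ) + 1) * 2 ^ (M / 200)) +
          (4 + Real.log N₀) * (((M : ℝ) + 1) * ((M : ℝ) + 1)) := by ring
    _ ≤ 2 * (2 * 2 ^ M) + (4 + Real.log N₀) * (4 * 2 ^ M) :=
        add_le_add (mul_le_mul_of_nonneg_left a2 (by norm_num))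
          (mul_le_mul_of_nonneg_left a1 (by linarith))
    _ = (4 * (4 + Real.log N₀) + 4) * 2 ^ M := by ring

/-! ## From the blocks to the integers -/

/-- the sum over the levels -/
lemma glue (hU : T_BLU) {X N K : ℕ} (F : ℕ → ℕ → ℝ) {b : ℝ} (hN : 1 ≤ N) (hX : 3 ≤ X)
    (hb : 0 ≤ b) (hF : ∀ j < K, ∀ n, 0 ≤ F j n ∧ F j n ≤ b) (T : ℕ → ℝ)
    (hT : ∀ i, 1 ≤ i → ∑ j ∈ range K, (∑ k ∈ range N, F j (i * N + k)) / (N : ℝ) ≤ T i) :
    ∑ j ∈ range K, EB.lg X (F j) ≤ K * (3 * b * (1 + Real.log N)) +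
      ∑ i ∈ Icc 1 (X / N - 1), 1 / (i : ℝ) * T i := by
  calc ∑ j ∈ range K, EB.lg X (F j) ≤ ∑ j ∈ range K, (3 * b * (1 + Real.log N) +
        ∑ i ∈ Icc 1 (X / N - 1), 1 / (i : ℝ) * ((∑ k ∈ range N, F j (i * N + k)) / N)) :=
        sum_le_sum fun j hj => hU X N (F j) b hN hX hb (hF j (mem_range.1 hj))
    _ = K * (3 * b * (1 + Real.log N)) + ∑ i ∈ Icc 1 (X / N - 1), 1 / (i : ℝ) *
        ∑ j ∈ range K, ((∑ k ∈ range N, F j (i * N + k)) / (N : ℝ)) := by
        rw [sum_add_distrib, sum_const, card_range, nsmul_eq_mul, sum_comm]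
        congr 1
        refine sum_congr rfl fun i _ => ?_
        rw [mul_sum]
    _ ≤ _ := by
        refine add_le_add le_rfl (sum_le_sum fun i hi => mul_le_mul_of_nonneg_left ?_
          (by positivity))
        exact hT i (mem_Icc.1 hi).1

lemma harm_le (X N : ℕ) (hX : 3 ≤ X) :
    ∑ i ∈ Icc 1 (X / N - 1), 1 / (i : ℝ) ≤ 1 + Real.log X := by
  have h1 : ∑ i ∈ Icc 1 (X / N - 1), 1 / (i : ℝ) ≤ ∑ i ∈ Icc 1 X, 1 / (i : ℝ) := by
    refine sum_le_sum_of_subset_of_nonneg ?_ fun i _ _ => by positivity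
    refine Icc_subset_Icc le_rfl ?_
    exact (Nat.sub_le _ _).trans (Nat.div_le_self _ _)
  have h2 := harmonic_le_one_add_log X
  unfold harmonic at h2
  push_cast at h2
  have h3 : ∑ i ∈ Icc 1 X, 1 / (i : ℝ) = ∑ i ∈ range X, ((i : ℝ) + 1)⁻¹ := by
    rw [show Icc 1 X = (range X).image (fun i => i + 1) by
      ext i
      simp only [mem_Icc, mem_image, mem_range]
      constructor
      · rintro ⟨h1, h2⟩
        exact ⟨i - 1, by omega, by omega⟩
      · rintro ⟨j, h1, h2⟩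
        omega]
    rw [sum_image (by intro a _ b _ h; simpa using h)]
    refine sum_congr rfl fun i _ => ?_
    push_cast
    rw [one_div]
  linarith

/-- the sum over the blocks -/
lemma total (hM : T_MNT) {ε e C W : ℝ} {R s N₀ K X M a₀ : ℕ} {lam : ℕ → ℝ}
    (hε : 0 < ε) (hC : 0 < C) (hX : 3 ≤ X) (hN₀ : 1 ≤ N₀)
    (hE : ∀ (X N : ℕ) [NeZero N] (lam : ℕ → ℝ), N₀ ≤ N → 2 * N ≤ X →
      (∀ n, 1 ≤ n → lam n = 1 ∨ lam n = -1) → EB.Base lam R (2 ^ s) e X →
      ∑ i ∈ Icc 1 (X / N - 1), 1 / (i : ℝ) *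
        (ent (unif N) (fun n => wd (blk lam N i) (2 ^ s) n) / 2 ^ s) ≤
        ε / (8 * C) * Real.log X)
    (hl : ∀ n, 1 ≤ n → lam n = 1 ∨ lam n = -1) (hbase : EB.Base lam R (2 ^ s) e X)
    (hU : T_BLU) (hW : 0 < W) (hKM : K ≤ M + 1) (hsa : s ≤ a₀)
    (hM4 : (4 : ℝ) ^ M ≤ Real.log X)
    (hbig : (1 + 216 * W / ε) * (4 * (4 + Real.log N₀) + 4) ≤ Real.sqrt (Real.log X) - 1)
    {δ₁ δ₂ : ℝ} (hδ₁ : C * δ₁ ≤ ε / 16) (hδ₂ : C * δ₂ ≤ ε / 16) (hδ₁0 : 0 ≤ δ₁) (hδ₂0 : 0 ≤ δ₂)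
    (N : ℕ) [NeZero N] (hN : N = primorial (2 ^ (M / 200)) * 2 ^ (3 * M) * N₀)
    (F : ℕ → ℕ → ℝ) (hF : ∀ j < K, ∀ n, 0 ≤ F j n ∧ F j n ≤ 9 * W)
    (hT : ∀ i, 1 ≤ i → ∑ j ∈ range K, (∑ k ∈ range N, F j (i * N + k)) / (N : ℝ) ≤
      C * (ent (unif N) (fun n => wd (blk lam N i) (2 ^ a₀) n) / 2 ^ a₀ + δ₁ + δ₂)) :
    ∑ j ∈ range K, EB.lg X (F j) ≤ ε * Real.log X := by
  set Y := Real.log (X : ℝ) with hY
  have hYpos : 0 < Y := lt_of_lt_of_le (by positivity) hM4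
  have hY1 : 1 ≤ Y := by
    refine le_trans (one_le_pow₀ (by norm_num)) hM4
  have hsz := size_le M N₀ hN₀
  rw [← hN] at hsz
  set G := 4 * (4 + Real.log (N₀ : ℝ)) + 4 with hG
  have hl0 : 0 ≤ Real.log (N₀ : ℝ) := Real.log_natCast_nonneg _
  have hG0 : 1 ≤ G := by rw [hG]; linarith
  -- the square root
  obtain ⟨r, hr⟩ : ∃ r : ℝ, r = Real.sqrt Y := ⟨_, rfl⟩
  have hr0 : 0 ≤ r := by rw [hr]; exact Real.sqrt_nonneg _
  have hrr : r * r = Y := by rw [hr]; exact Real.mul_self_sqrt hYpos.le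
  rw [← hr] at hbig
  have h2M : (2 : ℝ) ^ M ≤ r := by
    rw [hr]
    apply Real.le_sqrt_of_sq_le
    rw [← pow_mul, mul_comm, pow_mul]
    norm_num
    exact hM4
  have hWe : 0 < 216 * W / ε := by positivity
  have hGr : G ≤ r - 1 := by
    calc G = 1 * G := (one_mul _).symm
      _ ≤ (1 + 216 * W / ε) * G := mul_le_mul_of_nonneg_right (by linarith) (by linarith)
      _ ≤ r - 1 := hbig
  have hGr2 : (216 * W / ε) * G ≤ r := by
    have : (1 + 216 * W / ε) * G = G + (216 * W / ε) * G := by ring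
    linarith
  have hsz2 : ((M : ℝ) + 1) * (1 + Real.log N) ≤ G * r :=
    hsz.trans (mul_le_mul_of_nonneg_left h2M (by linarith))
  have hNpos : 0 < N := Nat.pos_of_ne_zero (NeZero.ne N)
  have hNr : (0 : ℝ) < N := by exact_mod_cast hNpos
  have hlN : 0 ≤ Real.log (N : ℝ) := Real.log_natCast_nonneg _
  have hlN2 : 1 + Real.log N ≤ Y - 1 := by
    have h1 : 1 + Real.log N ≤ ((M : ℝ) + 1) * (1 + Real.log N) := by
      have : (0 : ℝ) ≤ M := Nat.cast_nonneg _
      nlinarith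
    have h2 : G * r ≤ (r - 1) * r := mul_le_mul_of_nonneg_right hGr hr0
    have h3 : (r - 1) * r = Y - r := by rw [sub_mul, hrr, one_mul]
    have h4 : 1 ≤ r := by linarith
    linarith
  have h2N : 2 * N ≤ X := by
    have h1 : Real.log ((2 * N : ℕ) : ℝ) ≤ Real.log (X : ℝ) := by
      push_cast
      rw [Real.log_mul (by norm_num) hNr.ne']
      have := Real.log_two_lt_d9
      linarith
    have h2 : ((2 * N : ℕ) : ℝ) ≤ X := by
      rwa [Real.log_le_log_iff (by push_cast; positivity) (by positivity)] at h1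
    exact_mod_cast h2
  have hNN : N₀ ≤ N := by
    rw [hN]
    exact Nat.le_mul_of_pos_left _ (Nat.mul_pos (primorial_pos _) (by positivity))
  have hEE := hE X N lam hNN h2N hl hbase
  have hg := glue hU F hNpos hX (by positivity) hF _ hT
  have hh := harm_le X N hX
  rw [← hY] at hh hEE
  -- the first term
  have t1 : (K : ℝ) * (3 * (9 * W) * (1 + Real.log N)) ≤ ε / 8 * Y := by
    have hK : (K : ℝ) ≤ (M : ℝ) + 1 := by exact_mod_cast hKM
    calc (K : ℝ) * (3 * (9 * W) * (1 + Real.log N)) ≤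
          ((M : ℝ) + 1) * (3 * (9 * W) * (1 + Real.log N)) :=
          mul_le_mul_of_nonneg_right hK (by positivity)
      _ = 27 * W * (((M : ℝ) + 1) * (1 + Real.log N)) := by ring
      _ ≤ 27 * W * (G * r) := mul_le_mul_of_nonneg_left hsz2 (by positivity)
      _ = ε / 8 * (((216 * W / ε) * G) * r) := by field_simp; ring
      _ ≤ ε / 8 * (r * r) := by
          apply mul_le_mul_of_nonneg_left _ (by positivity)
          exact mul_le_mul_of_nonneg_right hGr2 hr0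
      _ = ε / 8 * Y := by rw [hrr]
  -- the second term
  have t2 : ∑ i ∈ Icc 1 (X / N - 1), 1 / (i : ℝ) *
      (C * (ent (unif N) (fun n => wd (blk lam N i) (2 ^ a₀) n) / 2 ^ a₀ + δ₁ + δ₂)) ≤
      ε / 8 * Y + ε / 8 * (1 + Y) := by
    calc ∑ i ∈ Icc 1 (X / N - 1), 1 / (i : ℝ) *
        (C * (ent (unif N) (fun n => wd (blk lam N i) (2 ^ a₀) n) / 2 ^ a₀ + δ₁ + δ₂)) ≤
        ∑ i ∈ Icc 1 (X / N - 1), (C * (1 / (i : ℝ) *
        (ent (unif N) (fun n => wd (blk lam N i) (2 ^ s) n) / 2 ^ s)) +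
          (C * δ₁ + C * δ₂) * (1 / (i : ℝ))) := by
          refine sum_le_sum fun i _ => ?_
          have h1 := ent_rate hM (blk lam N i) hsa
          have h2 : (0 : ℝ) ≤ 1 / (i : ℝ) := by positivity
          calc 1 / (i : ℝ) *
              (C * (ent (unif N) (fun n => wd (blk lam N i) (2 ^ a₀) n) / 2 ^ a₀ + δ₁ + δ₂)) ≤
              1 / (i : ℝ) *
              (C * (ent (unif N) (fun n => wd (blk lam N i) (2 ^ s) n) / 2 ^ s + δ₁ + δ₂)) := by
                gcongr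
            _ = _ := by ring
      _ = C * ∑ i ∈ Icc 1 (X / N - 1), (1 / (i : ℝ) *
        (ent (unif N) (fun n => wd (blk lam N i) (2 ^ s) n) / 2 ^ s)) +
          (C * δ₁ + C * δ₂) * ∑ i ∈ Icc 1 (X / N - 1), 1 / (i : ℝ) := by
          rw [sum_add_distrib, ← mul_sum, ← mul_sum]
      _ ≤ C * (ε / (8 * C) * Y) + (ε / 16 + ε / 16) * (1 + Y) := by
          refine add_le_add (mul_le_mul_of_nonneg_left hEE hC.le) ?_
          refine mul_le_mul (by linarith) hh ?_ (by positivity)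
          exact sum_nonneg fun i _ => by positivity
      _ = ε / 8 * Y + ε / 8 * (1 + Y) := by field_simp; ring
  have h3 : ε / 8 * (1 + Y) ≤ ε / 4 * Y := by nlinarith
  have h4 : 0 < ε * Y := by positivity
  calc ∑ j ∈ range K, EB.lg X (F j) ≤ K * (3 * (9 * W) * (1 + Real.log N)) +
        ∑ i ∈ Icc 1 (X / N - 1), 1 / (i : ℝ) *
      (C * (ent (unif N) (fun n => wd (blk lam N i) (2 ^ a₀) n) / 2 ^ a₀ + δ₁ + δ₂)) := hg
    _ ≤ ε / 8 * Y + (ε / 8 * Y + ε / 8 * (1 + Y)) := add_le_add t1 t2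
    _ ≤ ε / 8 * Y + (ε / 8 * Y + ε / 4 * Y) := by linarith
    _ ≤ ε * Y := by nlinarith

/-- chains -/
lemma chain {K : ℕ} {m : ℕ → ℕ} (h0 : 1 ≤ m 0) (h : ∀ i, i + 1 < K → 400 * m i ≤ m (i + 1)) :
    ∀ i, i < K → i + 1 ≤ m i ∧ ∀ j, j ≤ i → m j ≤ m i := by
  intro i
  induction i with
  | zero =>
    intro _
    refine ⟨h0, fun j hj => ?_⟩
    have : j = 0 := by omega
    rw [this]
  | succ i ih =>
    intro hi
    obtain ⟨h1, h2⟩ := ih (by omega)
    have h3 := h i hi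
    refine ⟨by omega, fun j hj => ?_⟩
    rcases Nat.eq_or_lt_of_le hj with h4 | h4
    · rw [h4]
    · have := h2 j (by omega)
      omega

theorem pf_EBS (hB : T_BK) (hU : T_BLU) (hE : T_ENB) (hQ : T_QSU) (hM : T_MNT) : T_EBS := by
  obtain ⟨C, w₀, hC, hBK⟩ := hB
  obtain ⟨W, hW, hQW⟩ := hQ
  refine ⟨400, by norm_num, fun ε hε => ?_⟩
  obtain ⟨e, he, hE1⟩ := hE (ε / (8 * C)) (by positivity)
  refine ⟨e, he, fun R => ?_⟩
  obtain ⟨s₁, hE2⟩ := hE1 R
  -- the error terms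
  have hlim : Filter.Tendsto (fun n : ℕ => Real.log (n : ℝ) / n) Filter.atTop (nhds 0) := by
    have h1 := Real.isLittleO_log_id_atTop.tendsto_div_nhds_zero
    exact h1.comp tendsto_natCast_atTop_atTop
  have hpow : Filter.Tendsto (fun n : ℕ => ((1 : ℝ) / 2) ^ n) Filter.atTop (nhds 0) :=
    tendsto_pow_atTop_nhds_zero_of_lt_one (by norm_num) (by norm_num)
  obtain ⟨s₂, hs₂⟩ := Filter.eventually_atTop.1
    ((hlim.eventually (gt_mem_nhds (show (0 : ℝ) < ε / (16 * C) by positivity))).and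
      (hpow.eventually (gt_mem_nhds (show (0 : ℝ) < ε / (32 * C) by positivity))))
  refine ⟨s₁ + w₀ + s₂ + 1, fun s hs => ?_⟩
  obtain ⟨N₁, hE3⟩ := hE2 s (by omega)
  obtain ⟨N₀, hN₀, hN₀1⟩ : ∃ N₀ : ℕ, 1 ≤ N₀ ∧ N₁ ≤ N₀ := ⟨N₁ + 1, by omega, by omega⟩
  -- X is large
  have hsq : Filter.Tendsto (fun X : ℕ => Real.sqrt (Real.log (X : ℝ)) - 1) Filter.atTop
      Filter.atTop := by
    refine Filter.tendsto_atTop_add_const_right _ _ ?_
    exact Real.tendsto_sqrt_atTop.comp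
      (Real.tendsto_log_atTop.comp tendsto_natCast_atTop_atTop)
  obtain ⟨X₀, hX₀⟩ := Filter.eventually_atTop.1 (hsq.eventually (Filter.eventually_ge_atTop
    ((1 + 216 * W / ε) * (4 * (4 + Real.log N₀) + 4))))
  refine ⟨X₀ + 3, fun X K lam m hX hl hbase hm0 hmm hm4 => ?_⟩
  have hX3 : 3 ≤ X := by omega
  have hXX := hX₀ X (by omega)
  have hY0 : 0 ≤ Real.log (X : ℝ) := Real.log_natCast_nonneg _
  have hlam : ∀ n, 1 ≤ n → |lam n| ≤ 1 := by
    intro n hn
    rcases hl n hn with h | h <;> rw [h] <;> norm_num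
  rcases Nat.eq_zero_or_pos K with hK | hK
  · subst hK
    refine ⟨fun α g _ => ?_, fun β => ⟨β, fun i hi => absurd hi (by omega), ?_⟩⟩
    · unfold EB.besSum
      rw [sum_range_zero]
      positivity
    · rw [sum_range_zero]
      positivity
  have hch := chain (K := K) (m := m) (by omega) hmm
  obtain ⟨M, hMd⟩ : ∃ M : ℕ, M = m (K - 1) := ⟨_, rfl⟩
  have hMle : ∀ j, j < K → m j ≤ M := by
    intro j hj
    rw [hMd]
    exact (hch (K - 1) (by omega)).2 j (by omega)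
  have hKM : K ≤ M + 1 := by
    have := (hch (K - 1) (by omega)).1
    rw [← hMd] at this
    omega
  have hM4 : (4 : ℝ) ^ M ≤ Real.log X := by
    rw [hMd]
    exact hm4 (K - 1) (by omega)
  have hMm0 : m 0 ≤ M := hMle 0 hK
  obtain ⟨N, hN⟩ : ∃ N : ℕ, N = primorial (2 ^ (M / 200)) * 2 ^ (3 * M) * N₀ := ⟨_, rfl⟩
  have hNpos : 0 < N := by
    rw [hN]
    exact Nat.mul_pos (Nat.mul_pos (primorial_pos _) (by positivity)) (by omega)
  haveI : NeZero N := ⟨by omega⟩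
  have hNr : (0 : ℝ) < N := by exact_mod_cast hNpos
  have hdvd : ∀ j < K, primorial (2 ^ (m j / 200)) ∣ N := by
    intro j hj
    have h1 : primorial (2 ^ (m j / 200)) ∣ primorial (2 ^ (M / 200)) := by
      unfold primorial
      refine Finset.prod_dvd_prod_of_subset _ _ _ ?_
      intro p hp
      rw [Finset.mem_filter, Finset.mem_range] at hp ⊢
      have h2 : 2 ^ (m j / 200) ≤ 2 ^ (M / 200) :=
        Nat.pow_le_pow_right (by norm_num) (Nat.div_le_div_right (hMle j hj))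
      exact ⟨by omega, hp.2⟩
    rw [hN, mul_assoc]
    exact h1.mul_right _
  -- the two error terms
  have hs2 := hs₂ (m 0) (by omega)
  have hs3 := hs₂ M (by omega)
  have hδ₁ : C * (Real.log (m 0) / m 0) ≤ ε / 16 := by
    have h1 := hs2.1.le
    calc C * (Real.log (m 0) / m 0) ≤ C * (ε / (16 * C)) := mul_le_mul_of_nonneg_left h1 hC.le
      _ = ε / 16 := by field_simp
  have hsum2 : (∑ j ∈ range K, (2 : ℝ) ^ m j) / (N : ℝ) ≤ 2 * (1 / 2) ^ M := by
    have h1 : ∑ j ∈ range K, (2 : ℝ) ^ m j ≤ K * 2 ^ M := by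
      calc ∑ j ∈ range K, (2 : ℝ) ^ m j ≤ ∑ j ∈ range K, (2 : ℝ) ^ M :=
            sum_le_sum fun j hj => pow_le_pow_right₀ (by norm_num) (hMle j (mem_range.1 hj))
        _ = K * 2 ^ M := by rw [sum_const, card_range, nsmul_eq_mul]
    have h2 : (K : ℝ) ≤ 2 * 2 ^ M := by
      have h3 : M < 2 ^ M := Nat.lt_two_pow_self
      have h4 : K ≤ 2 * 2 ^ M := by omega
      exact_mod_cast h4
    have h3 : (2 : ℝ) ^ (3 * M) ≤ N := by
      have h4 : 2 ^ (3 * M) ≤ N := by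
        rw [hN]
        calc 2 ^ (3 * M) = 1 * 2 ^ (3 * M) * 1 := by ring
          _ ≤ primorial (2 ^ (M / 200)) * 2 ^ (3 * M) * N₀ :=
            Nat.mul_le_mul (Nat.mul_le_mul_right _ (primorial_pos _)) hN₀
      exact_mod_cast h4
    rw [div_le_iff₀ hNr]
    have h4 : (0 : ℝ) < 2 ^ M := by positivity
    have h5 : ((1 : ℝ) / 2) ^ M * 2 ^ M = 1 := by rw [← mul_pow]; norm_num
    calc ∑ j ∈ range K, (2 : ℝ) ^ m j ≤ K * 2 ^ M := h1
      _ ≤ (2 * 2 ^ M) * 2 ^ M := mul_le_mul_of_nonneg_right h2 h4.le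
      _ = 2 * (((1 : ℝ) / 2) ^ M * 2 ^ M) * (2 ^ M * 2 ^ M) := by rw [h5]; ring
      _ = 2 * (1 / 2) ^ M * 2 ^ (3 * M) := by
        rw [show 3 * M = M + M + M by ring, pow_add, pow_add]; ring
      _ ≤ 2 * (1 / 2) ^ M * N := mul_le_mul_of_nonneg_left h3 (by positivity)
  have hsum0 : 0 ≤ (∑ j ∈ range K, (2 : ℝ) ^ m j) / (N : ℝ) := by positivity
  have hδ₂ : C * ((∑ j ∈ range K, (2 : ℝ) ^ m j) / (N : ℝ)) ≤ ε / 16 := by
    calc C * ((∑ j ∈ range K, (2 : ℝ) ^ m j) / (N : ℝ)) ≤ C * (2 * (ε / (32 * C))) :=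
          mul_le_mul_of_nonneg_left (hsum2.trans (mul_le_mul_of_nonneg_left hs3.2.le
            (by norm_num))) hC.le
      _ = ε / 16 := by field_simp; norm_num
  have hδ0 : 0 ≤ Real.log (m 0 : ℝ) / m 0 :=
    div_nonneg (Real.log_natCast_nonneg _) (Nat.cast_nonneg _)
  have htot := total (R := R) (s := s) (N₀ := N₀) (K := K) (X := X) (M := M) (a₀ := m 0 / 400)
    (lam := lam) (e := e) (C := C) (W := W) hM hε hC hX3 hN₀
    (fun X N _ lam h1 h2 h3 h4 => hE3 X N lam (by omega) h2 h3 h4) hl hbase hU hW hKM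
    (by omega) hM4 hXX hδ₁ hδ₂ hδ0 hsum0 N hN
  constructor
  · intro α g hg
    unfold EB.besSum
    refine htot (fun i n => ∑ q ∈ EB.QQ (m i), 1 / (q : ℝ) *
      EB.zz lam q (2 ^ m i) n (α i n) (g i n q) ^ 2) ?_ ?_
    · intro j hj n
      have h1 := lev_le hlam (hQW (m j)) n (fun _ => 1) (fun _ => ⟨zero_le_one, le_rfl⟩)
        (fun _ => α j n) (g j n) (fun q hq => (hg j hj n q hq).bd)
      simp only [one_mul] at h1
      exact h1
    · intro i hi
      exact (hBK N K i lam m hi hl (by omega) hmm hdvd).1 α g hg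
  · intro β
    have hb : ∀ i, 1 ≤ i → _ := fun i hi => (hBK N K i lam m hi hl (by omega) hmm hdvd).2 β
    choose! A hA1 hA2 using hb
    refine ⟨fun j n q => if N ≤ n then A (n / N) j n q else β j n q, ?_, ?_⟩
    · intro j hj n q hq
      have hnd : ∀ x y : ℝ, x = y → nd (x - y) = 0 := by
        intro x y h
        rw [h, sub_self]
        unfold nd
        simp
      rcases le_or_gt N n with hn | hn
      · obtain ⟨b, hb⟩ := hA1 (n / N) (Nat.div_pos hn hNpos) j n q hq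
        refine ⟨b, ?_⟩
        dsimp only
        rw [if_pos hn, sub_sub, hnd _ _ hb]
        positivity
      · refine ⟨0, ?_⟩
        dsimp only
        rw [if_neg (by omega), sub_sub, hnd _ _ (by simp)]
        positivity
    · refine htot (fun i n => ∑ q ∈ EB.QQ (m i), 1 / (q : ℝ) *
        (EB.ind (63 / 100 ≤ ‖EB.crq lam q (2 ^ m i) n (β i n q)‖) *
          EB.zz lam q (2 ^ m i) n (if N ≤ n then A (n / N) i n q else β i n q)
            (fun _ => 1) ^ 2)) ?_ ?_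
      · intro j hj n
        exact lev_le hlam (hQW (m j)) n
          (fun q => EB.ind (63 / 100 ≤ ‖EB.crq lam q (2 ^ m j) n (β j n q)‖))
          (fun q => ⟨ind_nonneg _, ind_le_one _⟩)
          (fun q => if N ≤ n then A (n / N) j n q else β j n q) (fun _ _ => 1)
          (fun q _ m _ => by simp)
      · intro i hi
        refine le_trans (le_of_eq ?_) (hA2 i hi)
        refine sum_congr rfl fun j _ => ?_
        congr 1
        refine sum_congr rfl fun k hk => ?_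
        have hk' := mem_range.1 hk
        have h1 : N ≤ i * N + k := by
          have := Nat.le_mul_of_pos_left N (show 0 < i by omega)
          omega
        have h2 : (i * N + k) / N = i := by
          rw [mul_comm, Nat.mul_add_div hNpos, Nat.div_eq_of_lt hk', add_zero]
        refine sum_congr rfl fun q _ => ?_
        rw [if_pos h1, h2]

end Pool.Agent.H56.ES
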